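import Mathlib
import Pool.Agent.Helper60.SB.Defs

/-! MP_7fc85e_an, module D: from the two moment bounds to the counting theorem.
Author: helper12. -/

open Finset

namespace Pool.Agent.Helper12.SB

open Pool.Agent.Helper60.SB

/-- the statement of module A, for types in `Type` -/
def Blowup : Prop := ∀ (ι : Type) [Fintype ι] [DecidableEq ι] (A : Finset (ι → Bool)) (θ : ℝ),
    0 ≤ θ →
    ((univ.filter fun x : ι → Bool =>
        ∀ y ∈ A, θ * Fintype.card ι ≤ (hammingDist x y : ℝ)).card : ℝ) * A.card ≤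
      Real.exp (-θ ^ 2 * Fintype.card ι) * 4 ^ Fintype.card ι

/-- arithmetic-geometric mean -/
lemma abs_le_amgm (p s : ℝ) (hs : 0 < s) : |p| ≤ s / 2 + p ^ 2 / (2 * s) := by
  have h1 : 0 ≤ (|p| - s) ^ 2 := sq_nonneg _
  have h2 : |p| ^ 2 = p ^ 2 := sq_abs p
  have h3 : s / 2 + p ^ 2 / (2 * s) - |p| = (|p| - s) ^ 2 / (2 * s) := by
    rw [← h2]; field_simp; ring
  have h4 : 0 ≤ (|p| - s) ^ 2 / (2 * s) := by positivity
  linarith

lemma sum_abs_le {ι : Type} [Fintype ι] (D : Finset ι) (p : ι → ℝ) (s : ℝ) (hs : 0 < s) :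
    ∑ R ∈ D, |p R| ≤ D.card * (s / 2) + (∑ R, p R ^ 2) / (2 * s) := by
  calc ∑ R ∈ D, |p R| ≤ ∑ R ∈ D, (s / 2 + p R ^ 2 / (2 * s)) :=
        Finset.sum_le_sum fun R _ => abs_le_amgm _ _ hs
    _ = D.card * (s / 2) + (∑ R ∈ D, p R ^ 2) / (2 * s) := by
        rw [Finset.sum_add_distrib, Finset.sum_const, nsmul_eq_mul, Finset.sum_div]
    _ ≤ D.card * (s / 2) + (∑ R, p R ^ 2) / (2 * s) := by
        have : ∑ R ∈ D, p R ^ 2 ≤ ∑ R, p R ^ 2 :=
          Finset.sum_le_sum_of_subset_of_nonneg (Finset.subset_univ _) fun _ _ _ => sq_nonneg _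
        gcongr

lemma sg_not (b : Bool) : sg (!b) = - sg b := by cases b <;> simp

/-- one coordinate -/
lemma coord (a p : ℝ) (ha0 : 0 ≤ a) (ha1 : a ≤ 1) (b c : Bool) :
    a * sg b * p ≤ a * sg c * p + 2 * (if b ≠ c then |p| else 0) := by
  by_cases h : b = c
  · subst h; simp
  · have hc : c = !b := by cases b <;> cases c <;> simp_all
    rw [if_pos h, hc, sg_not]
    have h1 : a * (sg b * p) ≤ |p| := by
      calc a * (sg b * p) ≤ |a * (sg b * p)| := le_abs_self _
        _ = a * |p| := by rw [abs_mul, abs_mul, abs_sg, one_mul, abs_of_nonneg ha0]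
        _ ≤ 1 * |p| := mul_le_mul_of_nonneg_right ha1 (abs_nonneg _)
        _ = |p| := one_mul _
    nlinarith

/-- module D, with module A as a hypothesis -/
theorem count_of_moments (blowup : Blowup) (δ' C : ℝ) (hδ : 0 < δ') (hC : 0 < C) :
    ∃ c > 0, ∃ N₀ : ℕ, ∀ (ι P : Type) [Fintype ι] [DecidableEq ι] [Fintype P],
      N₀ ≤ Fintype.card ι →
      ∀ (ρ : (ι → Bool) → P → ℝ) (w : ι → P → ℝ) (a : ι → ℝ) (r : ℝ), 0 < r →
      (∀ β x, 0 ≤ ρ β x) → (av (fun β => ∑ x, ρ β x) ≤ 1) →
      (∀ R, 0 ≤ a R) → (∀ R, a R ≤ 1) →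
      (δ' * r * Fintype.card ι ≤ av fun β : ι → Bool => ∑ R, a R * sg (β R) * ∑ x, ρ β x * w R x) →
      (av (fun β : ι → Bool => ∑ R, (∑ x, ρ β x * w R x) ^ 2) ≤ C * r ^ 2 * Fintype.card ι) →
      ∀ g : P → ℝ,
        ((univ.filter fun α : ι → Bool =>
            ∀ x, |∑ R, a R * sg (α R) * w R x - g x| ≤ c * r * Fintype.card ι).card : ℝ) ≤
          Real.exp (-c * Fintype.card ι) * 2 ^ Fintype.card ι := by
  set K : ℝ := 8 * C / δ' with hK
  set θ : ℝ := δ' ^ 2 / (64 * C) with hθ
  set c : ℝ := min (δ' / 8) (θ ^ 2 / 2) with hc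
  have hKpos : 0 < K := by positivity
  have hθpos : 0 < θ := by positivity
  have hcpos : 0 < c := lt_min (by positivity) (by positivity)
  have hc1 : c ≤ δ' / 8 := min_le_left _ _
  have hc2 : c ≤ θ ^ 2 / 2 := min_le_right _ _
  have hθK : θ * K = δ' / 8 := by rw [hθ, hK]; field_simp; ring
  have hCK : C / K = δ' / 8 := by rw [hK]; field_simp
  refine ⟨c, hcpos, ⌈16 * K / (δ' * θ ^ 2)⌉₊ + 1, ?_⟩
  intro ι P _ _ _ hN ρ w a r hr hρ hS ha0 ha1 hX hY g
  set N : ℝ := (Fintype.card ι : ℝ) with hNdef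
  have hN1 : 1 ≤ Fintype.card ι := by omega
  have hNpos : 0 < N := by rw [hNdef]; exact_mod_cast hN1
  have hNbig : 16 * K / (δ' * θ ^ 2) ≤ N := by
    have h1 : 16 * K / (δ' * θ ^ 2) ≤ (⌈16 * K / (δ' * θ ^ 2)⌉₊ : ℝ) := Nat.le_ceil _
    have h2 : ((⌈16 * K / (δ' * θ ^ 2)⌉₊ : ℕ) : ℝ) ≤ N := by
      rw [hNdef]; exact_mod_cast (by omega : ⌈16 * K / (δ' * θ ^ 2)⌉₊ ≤ Fintype.card ι)
    linarith
  set A : Finset (ι → Bool) := univ.filter fun α : ι → Bool =>
    ∀ x, |∑ R, a R * sg (α R) * w R x - g x| ≤ c * r * N with hA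
  by_contra hcon
  push Not at hcon
  set T : ℝ := 2 ^ Fintype.card ι with hT
  have hTpos : 0 < T := by positivity
  have h4T : (4 : ℝ) ^ Fintype.card ι = T * T := by
    rw [hT, ← mul_pow]; norm_num
  -- exponential smallness
  have hexp : Real.exp (-(θ ^ 2 * N / 2)) * K ≤ δ' / 8 := by
    set y := θ ^ 2 * N / 2 with hy
    have hy1 : 8 * K / δ' ≤ y := by
      rw [hy]
      rw [div_le_iff₀ (by positivity)] at hNbig
      rw [div_le_iff₀ hδ]
      nlinarith
    have hypos : 0 < y := lt_of_lt_of_le (by positivity) hy1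
    have h1 : y ≤ Real.exp y := by linarith [Real.add_one_le_exp y]
    have h2 : Real.exp (-y) ≤ 1 / y := by
      rw [Real.exp_neg, ← one_div]
      exact one_div_le_one_div_of_le hypos h1
    calc Real.exp (-y) * K ≤ 1 / y * K := mul_le_mul_of_nonneg_right h2 hKpos.le
      _ ≤ 1 / (8 * K / δ') * K := by
          refine mul_le_mul_of_nonneg_right ?_ hKpos.le
          exact one_div_le_one_div_of_le (by positivity) hy1
      _ = δ' / 8 := by field_simp
  -- the negated set
  set neg : (ι → Bool) → (ι → Bool) := fun α R => !(α R) with hneg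
  have hneginj : Function.Injective neg := by
    intro α β h
    funext R
    have := congrFun h R
    simpa [hneg] using this
  set A' := A.image neg with hA'
  have hA'card : A'.card = A.card := Finset.card_image_of_injective _ hneginj
  set B₁ : Finset (ι → Bool) := univ.filter fun x : ι → Bool =>
    ∀ y ∈ A, θ * Fintype.card ι ≤ (hammingDist x y : ℝ) with hB₁
  set B₂ : Finset (ι → Bool) := univ.filter fun x : ι → Bool =>
    ∀ y ∈ A', θ * Fintype.card ι ≤ (hammingDist x y : ℝ) with hB₂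
  have hAlow : Real.exp (-c * N) * T < A.card := hcon
  have hsmall : ∀ b : ℝ, 0 ≤ b → b * A.card ≤ Real.exp (-θ ^ 2 * Fintype.card ι) *
      4 ^ Fintype.card ι → b ≤ Real.exp (-(θ ^ 2 * N / 2)) * T := by
    intro b hb0 hb
    have h1 : b * (Real.exp (-c * N) * T) ≤ Real.exp (-θ ^ 2 * N) * (T * T) := by
      calc b * (Real.exp (-c * N) * T) ≤ b * A.card := mul_le_mul_of_nonneg_left hAlow.le hb0
        _ ≤ _ := by rw [← h4T]; exact hb
    have h2 : Real.exp (-θ ^ 2 * N) ≤ Real.exp (-(θ ^ 2 * N / 2)) * Real.exp (-c * N) := by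
      rw [← Real.exp_add]
      apply Real.exp_le_exp.mpr
      nlinarith
    have h3 : 0 < Real.exp (-c * N) := Real.exp_pos _
    have h4 : b * (Real.exp (-c * N) * T) ≤
        (Real.exp (-(θ ^ 2 * N / 2)) * T) * (Real.exp (-c * N) * T) := by
      calc b * (Real.exp (-c * N) * T) ≤ Real.exp (-θ ^ 2 * N) * (T * T) := h1
        _ ≤ (Real.exp (-(θ ^ 2 * N / 2)) * Real.exp (-c * N)) * (T * T) :=
            mul_le_mul_of_nonneg_right h2 (by positivity)
        _ = _ := by ring
    exact le_of_mul_le_mul_right h4 (by positivity)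
  have hb1 := hsmall B₁.card (by positivity) (blowup ι A θ hθpos.le)
  have hb2 := hsmall B₂.card (by positivity) (by
    have := blowup ι A' θ hθpos.le
    rw [hA'card] at this
    exact this)
  -- abbreviations
  set p : (ι → Bool) → ι → ℝ := fun β R => ∑ x, ρ β x * w R x with hp
  set X : (ι → Bool) → ℝ := fun β => ∑ R, a R * sg (β R) * p β R with hXdef
  set Y : (ι → Bool) → ℝ := fun β => ∑ R, p β R ^ 2 with hYdef
  set S : (ι → Bool) → ℝ := fun β => ∑ x, ρ β x with hSdef
  have hYnn : ∀ β, 0 ≤ Y β := fun β => Finset.sum_nonneg fun R _ => sq_nonneg _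
  have hSnn : ∀ β, 0 ≤ S β := fun β => Finset.sum_nonneg fun x _ => hρ β x
  have hs : 0 < r * K := by positivity
  -- the pointwise inequality for good `β`
  have hgood : ∀ β, β ∉ B₁ → β ∉ B₂ →
      X β ≤ c * r * N * S β + θ * N * (r * K) + Y β / (r * K) := by
    intro β h1 h2
    simp only [hB₁, Finset.mem_filter, Finset.mem_univ, true_and] at h1
    simp only [hB₂, Finset.mem_filter, Finset.mem_univ, true_and] at h2
    push Not at h1 h2
    obtain ⟨α, hα, hdα⟩ := h1
    obtain ⟨α'', hα'', hdα''⟩ := h2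
    obtain ⟨α', hα', rfl⟩ := Finset.mem_image.mp hα''
    simp only [hA, Finset.mem_filter, Finset.mem_univ, true_and] at hα hα'
    have e1 : ∑ R, a R * (sg (α R) - sg (α' R)) * p β R ≤ 2 * (c * r * N) * S β := by
      have e2 : ∑ R, a R * (sg (α R) - sg (α' R)) * p β R =
          ∑ x, ρ β x * (∑ R, a R * sg (α R) * w R x - ∑ R, a R * sg (α' R) * w R x) := by
        simp only [hp, Finset.mul_sum, ← Finset.sum_sub_distrib]
        rw [Finset.sum_comm]
        refine Finset.sum_congr rfl fun x _ => Finset.sum_congr rfl fun R _ => ?_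
        ring
      rw [e2, hSdef, Finset.mul_sum]
      refine Finset.sum_le_sum fun x _ => ?_
      have h5 := abs_le.mp (hα x)
      have h6 := abs_le.mp (hα' x)
      have h7 := hρ β x
      rw [mul_comm (2 * (c * r * N))]
      refine mul_le_mul_of_nonneg_left ?_ h7
      linarith [h5.1, h5.2, h6.1, h6.2]
    have e3 : 2 * X β ≤ ∑ R, a R * (sg (α R) - sg (α' R)) * p β R +
        2 * ∑ R, (if β R ≠ α R then |p β R| else 0) +
        2 * ∑ R, (if β R ≠ neg α' R then |p β R| else 0) := by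
      simp only [hXdef, Finset.mul_sum]
      rw [← Finset.sum_add_distrib, ← Finset.sum_add_distrib]
      refine Finset.sum_le_sum fun R _ => ?_
      have c1 := coord (a R) (p β R) (ha0 R) (ha1 R) (β R) (α R)
      have c2 := coord (a R) (p β R) (ha0 R) (ha1 R) (β R) (neg α' R)
      have c3 : sg (neg α' R) = - sg (α' R) := sg_not _
      rw [c3] at c2
      linarith
    have e4 : ∀ γ : ι → Bool, (hammingDist β γ : ℝ) < θ * Fintype.card ι →
        ∑ R, (if β R ≠ γ R then |p β R| else 0) ≤ θ * N * (r * K / 2) + Y β / (2 * (r * K)) := by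
      intro γ hγ
      rw [← Finset.sum_filter]
      refine (sum_abs_le _ (p β) (r * K) hs).trans ?_
      have : (((univ.filter fun R => β R ≠ γ R).card : ℕ) : ℝ) ≤ θ * N := hγ.le
      have h8 : (((univ.filter fun R => β R ≠ γ R).card : ℕ) : ℝ) * (r * K / 2) ≤
          θ * N * (r * K / 2) := mul_le_mul_of_nonneg_right this (by positivity)
      linarith
    have e5 := e4 α hdα
    have e6 := e4 (neg α') hdα''
    have e7 : Y β / (2 * (r * K)) = Y β / (r * K) / 2 := by field_simp
    rw [e7] at e5 e6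
    linarith
  have hbad : ∀ β, X β ≤ N * (r * K / 2) + Y β / (r * K) / 2 := by
    intro β
    have h1 : X β ≤ ∑ R, |p β R| := by
      refine Finset.sum_le_sum fun R _ => ?_
      calc a R * sg (β R) * p β R ≤ |a R * sg (β R) * p β R| := le_abs_self _
        _ = a R * |p β R| := by rw [abs_mul, abs_mul, abs_sg, mul_one, abs_of_nonneg (ha0 R)]
        _ ≤ 1 * |p β R| := mul_le_mul_of_nonneg_right (ha1 R) (abs_nonneg _)
        _ = |p β R| := one_mul _
    have h2 := sum_abs_le Finset.univ (p β) (r * K) hs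
    rw [Finset.card_univ] at h2
    have h3 : Y β / (2 * (r * K)) = Y β / (r * K) / 2 := by field_simp
    rw [← h3]
    exact h1.trans h2
  -- the combined inequality
  have hall : ∀ β, X β ≤ c * r * N * S β + θ * N * (r * K) + (3 / 2) * (Y β / (r * K)) +
      ((if β ∈ B₁ then 1 else 0) + (if β ∈ B₂ then 1 else 0)) * (N * (r * K / 2)) := by
    intro β
    have hy : 0 ≤ Y β / (r * K) := div_nonneg (hYnn β) hs.le
    have h1 : 0 ≤ c * r * N * S β := mul_nonneg (by positivity) (hSnn β)
    have h2 : 0 ≤ θ * N * (r * K) := by positivity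
    have h3 : 0 ≤ N * (r * K / 2) := by positivity
    by_cases g1 : β ∈ B₁
    · rw [if_pos g1]
      have := hbad β
      split_ifs <;> linarith
    · by_cases g2 : β ∈ B₂
      · rw [if_neg g1, if_pos g2]
        have := hbad β
        linarith
      · rw [if_neg g1, if_neg g2]
        have := hgood β g1 g2
        linarith
  -- summation
  have hsumall := Finset.sum_le_sum fun β (_ : β ∈ (Finset.univ : Finset (ι → Bool))) => hall β
  have hcardT : ((Finset.univ : Finset (ι → Bool)).card : ℝ) = T := by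
    rw [Finset.card_univ, Fintype.card_fun, Fintype.card_bool, hT]
    push_cast
    rfl
  rw [Finset.sum_add_distrib, Finset.sum_add_distrib, Finset.sum_add_distrib, Finset.sum_const,
    nsmul_eq_mul, hcardT, ← Finset.mul_sum, ← Finset.mul_sum, ← Finset.sum_div,
    ← Finset.sum_mul, Finset.sum_add_distrib, Finset.sum_boole, Finset.sum_boole,
    Finset.filter_mem_eq_inter, Finset.filter_mem_eq_inter, Finset.univ_inter,
    Finset.univ_inter] at hsumall
  have hX' : δ' * r * N * T ≤ ∑ β, X β := by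
    have := hX
    unfold av at this
    rwa [le_div_iff₀ hTpos] at this
  have hS' : ∑ β, S β ≤ T := by
    have := hS
    unfold av at this
    rw [div_le_iff₀ hTpos, one_mul] at this
    exact this
  have hY' : ∑ β, Y β ≤ C * r ^ 2 * N * T := by
    have := hY
    unfold av at this
    rwa [div_le_iff₀ hTpos] at this
  have hY'' : (∑ β, Y β) / (r * K) ≤ δ' / 8 * (r * N * T) := by
    rw [div_le_iff₀ hs]
    calc ∑ β, Y β ≤ C * r ^ 2 * N * T := hY'
      _ = (C / K) * (r * N * T) * (r * K) := by field_simp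
      _ = δ' / 8 * (r * N * T) * (r * K) := by rw [hCK]
  have hc' : c * r * N * ∑ β, S β ≤ δ' / 8 * (r * N * T) := by
    calc c * r * N * ∑ β, S β ≤ c * r * N * T :=
          mul_le_mul_of_nonneg_left hS' (by positivity)
      _ = c * (r * N * T) := by ring
      _ ≤ δ' / 8 * (r * N * T) := mul_le_mul_of_nonneg_right hc1 (by positivity)
  have hθ' : T * (θ * N * (r * K)) = δ' / 8 * (r * N * T) := by
    rw [← hθK]; ring
  have hB' : ((B₁.card : ℝ) + B₂.card) * (N * (r * K / 2)) ≤ δ' / 8 * (r * N * T) := by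
    calc ((B₁.card : ℝ) + B₂.card) * (N * (r * K / 2))
        ≤ (2 * (Real.exp (-(θ ^ 2 * N / 2)) * T)) * (N * (r * K / 2)) :=
          mul_le_mul_of_nonneg_right (by linarith) (by positivity)
      _ = (Real.exp (-(θ ^ 2 * N / 2)) * K) * (r * N * T) := by ring
      _ ≤ δ' / 8 * (r * N * T) := mul_le_mul_of_nonneg_right hexp (by positivity)
  have hpos : 0 < δ' * (r * N * T) := by positivity
  have hX'' : δ' * r * N * T = δ' * (r * N * T) := by ring
  linarith

end Pool.Agent.Helper12.SB
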